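import Pool.Agent.H11.ZDE.Stmts

/-!
# Module LAT of project ZDE: the root lattice of a positive definite simply laced Coxeter matrix
-/

namespace Pool.Agent.H11.ZDE

variable {B : Type*} [Fintype B] [DecidableEq B] {M : CoxeterMatrix B}

namespace LAT

theorem cart_self (i : B) : cart M i i = 2 := by simp [cart]

theorem cart_comm (i j : B) : cart M i j = cart M j i := by
  unfold cart
  rw [M.symmetric i j]
  by_cases h : i = j
  · rw [if_pos h, if_pos h.symm]
  · rw [if_neg h, if_neg (Ne.symm h)]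

theorem cart_le {i j : B} (h : i ≠ j) : cart M i j ≤ 0 := by
  unfold cart
  rw [if_neg h]
  split_ifs <;> decide

variable (M) in
/-- the form -/
def QQ (a b : B → ℤ) : ℤ := ∑ i, ∑ j, cart M i j * a i * b j

theorem QQ_add (a b c : B → ℤ) : QQ M (a + b) c = QQ M a c + QQ M b c := by
  simp only [QQ, ← Finset.sum_add_distrib, Pi.add_apply]
  refine Finset.sum_congr rfl fun i _ => Finset.sum_congr rfl fun j _ => ?_
  ring

theorem QQ_comm (a b : B → ℤ) : QQ M a b = QQ M b a := by
  unfold QQ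
  rw [Finset.sum_comm]
  refine Finset.sum_congr rfl fun i _ => Finset.sum_congr rfl fun j _ => ?_
  rw [cart_comm j i]; ring

theorem QQ_addr (a b c : B → ℤ) : QQ M c (a + b) = QQ M c a + QQ M c b := by
  rw [QQ_comm, QQ_add, QQ_comm a, QQ_comm b]

theorem QQ_smul (n : ℤ) (a c : B → ℤ) : QQ M (n • a) c = n * QQ M a c := by
  simp only [QQ, Finset.mul_sum, Pi.smul_apply, smul_eq_mul]
  refine Finset.sum_congr rfl fun i _ => Finset.sum_congr rfl fun j _ => ?_
  ring

theorem QQ_smulr (n : ℤ) (a c : B → ℤ) : QQ M c (n • a) = n * QQ M c a := by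
  rw [QQ_comm, QQ_smul, QQ_comm]

theorem QQ_sub (a b c : B → ℤ) : QQ M (a - b) c = QQ M a c - QQ M b c := by
  have h : a - b = a + (-1 : ℤ) • b := by ext i; simp [sub_eq_add_neg]
  rw [h, QQ_add, QQ_smul]; ring

theorem QQ_subr (a b c : B → ℤ) : QQ M c (a - b) = QQ M c a - QQ M c b := by
  rw [QQ_comm, QQ_sub, QQ_comm a, QQ_comm b]

theorem QQ_single_left (i : B) (b : B → ℤ) : QQ M (Pi.single i 1) b = ∑ j, cart M i j * b j := by
  unfold QQ
  rw [Finset.sum_eq_single i]
  · simp
  · intro k _ hk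
    apply Finset.sum_eq_zero
    intro j _
    simp [Pi.single_eq_of_ne hk]
  · intro h; exact absurd (Finset.mem_univ i) h

theorem QQ_single (i j : B) : QQ M (Pi.single i 1) (Pi.single j 1) = cart M i j := by
  rw [QQ_single_left, Finset.sum_eq_single j]
  · simp
  · intro k _ hk
    simp [Pi.single_eq_of_ne hk]
  · intro h; exact absurd (Finset.mem_univ j) h

theorem QQ_eq_sum (a b : B → ℤ) : QQ M a b = ∑ i, a i * QQ M (Pi.single i 1) b := by
  unfold QQ
  refine Finset.sum_congr rfl fun i _ => ?_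
  rw [← QQ, QQ_single_left, Finset.mul_sum]
  refine Finset.sum_congr rfl fun j _ => ?_
  ring

theorem even (a : B → ℤ) : Even (QQ M a a) := by
  have key : Even (QQ M (∑ i, Pi.single i (a i)) (∑ i, Pi.single i (a i))) := by
    refine Finset.sum_induction (fun i => (Pi.single i (a i) : B → ℤ)) (fun v => Even (QQ M v v)) ?_ ?_ ?_
    · intro v w hv hw
      have h : QQ M (v + w) (v + w) = QQ M v v + QQ M w w + 2 * QQ M v w := by
        rw [QQ_add, QQ_addr, QQ_addr, QQ_comm w v]; ring
      rw [h]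
      exact (hv.add hw).add (even_two_mul _)
    · simp [QQ]
    · intro i _
      have h : (Pi.single i (a i) : B → ℤ) = (a i) • (Pi.single i 1 : B → ℤ) := by
        rw [← Pi.single_smul]; simp
      rw [h, QQ_smul, QQ_smulr, QQ_single, cart_self]
      exact ((even_two).mul_left _).mul_left _
  rwa [Finset.univ_sum_single] at key

variable (h : PosDef M)
include h

theorem QQ_pos {a : B → ℤ} (ha : a ≠ 0) : 0 < QQ M a a := h.pos a ha

theorem QQ_two {a : B → ℤ} (ha : a ≠ 0) : 2 ≤ QQ M a a := by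
  have h1 := QQ_pos h ha
  obtain ⟨k, hk⟩ := even (M := M) a
  omega

theorem QQ_nonneg (a : B → ℤ) : 0 ≤ QQ M a a := by
  by_cases ha : a = 0
  · subst ha; simp [QQ]
  · exact (QQ_pos h ha).le

theorem ne_zero {a : B → ℤ} (ha : QQ M a a = 2) : a ≠ 0 := by
  rintro rfl
  simp [QQ] at ha

omit h in
theorem QQ_self_sub (a b : B → ℤ) : QQ M (a - b) (a - b) = QQ M a a + QQ M b b - 2 * QQ M a b := by
  rw [QQ_sub, QQ_subr, QQ_subr, QQ_comm b a]; ring

theorem root_sign {a : B → ℤ} (ha : QQ M a a = 2) : (∀ i, 0 ≤ a i) ∨ (∀ i, a i ≤ 0) := by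
  set p : B → ℤ := fun i => max (a i) 0 with hp
  set n : B → ℤ := fun i => max (-(a i)) 0 with hn
  have hpn : a = p - n := by
    ext i
    simp only [hp, hn, Pi.sub_apply]
    omega
  have hQ : QQ M p n ≤ 0 := by
    unfold QQ
    refine Finset.sum_nonpos fun i _ => Finset.sum_nonpos fun j _ => ?_
    by_cases hij : i = j
    · subst hij
      have : p i * n i = 0 := by
        simp only [hp, hn]
        rcases le_total (a i) 0 with h0 | h0
        · rw [max_eq_right h0]; ring
        · rw [max_eq_right (by omega : -(a i) ≤ 0)]; ring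
      rw [mul_assoc, this, mul_zero]
    · rw [mul_assoc]
      exact mul_nonpos_of_nonpos_of_nonneg (cart_le hij)
        (mul_nonneg (le_max_right _ _) (le_max_right _ _))
  have hs : QQ M p p + QQ M n n - 2 * QQ M p n = 2 := by
    rw [← QQ_self_sub, ← hpn, ha]
  by_cases hp0 : p = 0
  · right
    intro i
    have := congrFun hp0 i
    simp only [hp, Pi.zero_apply] at this
    omega
  by_cases hn0 : n = 0
  · left
    intro i
    have := congrFun hn0 i
    simp only [hn, Pi.zero_apply] at this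
    omega
  have h1 := QQ_two h hp0
  have h2 := QQ_two h hn0
  omega

theorem QQ_le_one {a b : B → ℤ} (ha : QQ M a a = 2) (hb : QQ M b b = 2) (hne : a ≠ b) : QQ M a b ≤ 1 := by
  have h1 := QQ_pos h (sub_ne_zero.2 hne)
  rw [QQ_self_sub, ha, hb] at h1
  omega

theorem root_P {a : B → ℤ} (ha : QQ M a a = 2) :
    (a ≠ 0 ∧ ∀ i, 0 ≤ a i) ∨ (-a ≠ 0 ∧ ∀ i, 0 ≤ (-a) i) := by
  have h0 := ne_zero h ha
  rcases root_sign h ha with h1 | h1
  · exact Or.inl ⟨h0, h1⟩
  · exact Or.inr ⟨neg_ne_zero.2 h0, fun i => by have := h1 i; simp only [Pi.neg_apply]; omega⟩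

theorem nonsimple {a : B → ℤ} (ha : QQ M a a = 2) (hp : ∀ i, 0 ≤ a i)
    (hs : ∀ i : B, (Pi.single i 1 : B → ℤ) ≠ a) :
    ∃ i, QQ M a (Pi.single i 1) = 1 ∧ 0 < a i := by
  have h1 : 0 < ∑ i, a i * QQ M (Pi.single i 1) a := by rw [← QQ_eq_sum, ha]; norm_num
  obtain ⟨i, _, hi⟩ := Finset.exists_lt_of_sum_lt (f := fun _ : B => (0 : ℤ)) (s := Finset.univ)
    (g := fun i => a i * QQ M (Pi.single i 1) a) (by simpa using h1)
  have hi' : 0 < a i * QQ M (Pi.single i 1) a := hi
  have hai : 0 < a i := by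
    rcases (hp i).lt_or_eq with h2 | h2
    · exact h2
    · rw [← h2, zero_mul] at hi'; exact absurd hi' (lt_irrefl _)
  have hq : 0 < QQ M (Pi.single i 1) a := by
    by_contra hc
    push Not at hc
    have := mul_nonpos_of_nonneg_of_nonpos hai.le hc
    omega
  have h2 := QQ_le_one h (by rw [QQ_single, cart_self]) ha (hs i)
  refine ⟨i, ?_, hai⟩
  rw [QQ_comm]
  omega

theorem fin : {a : B → ℤ | QQ M a a = 2}.Finite := by
  refine Set.Finite.of_injOn (f := fun (a : B → ℤ) (i : B) => ((a i : ℤ) : ZMod 3)) (t := Set.univ)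
    (fun _ _ => Set.mem_univ _) ?_ Set.finite_univ
  intro a ha b hb hab
  simp only [Set.mem_setOf_eq] at ha hb
  have hd : ∀ i, ∃ d : ℤ, a i - b i = 3 * d := by
    intro i
    have h1 : ((a i : ℤ) : ZMod 3) = ((b i : ℤ) : ZMod 3) := congrFun hab i
    have h2 := (ZMod.intCast_eq_intCast_iff_dvd_sub (b i) (a i) 3).1 h1.symm
    obtain ⟨d, hd⟩ := h2
    exact ⟨d, by exact_mod_cast hd⟩
  choose d hd using hd
  have he : a - b = (3 : ℤ) • d := by
    ext i
    simp [hd i]
  have h1 : QQ M (a - b) (a - b) = 9 * QQ M d d := by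
    rw [he, QQ_smul, QQ_smulr]; ring
  have h2 : QQ M (a + b) (a + b) = 4 + 2 * QQ M a b := by
    rw [QQ_add, QQ_addr, QQ_addr, QQ_comm b a, ha, hb]; ring
  have h3 := QQ_nonneg h (a + b)
  rw [QQ_self_sub, ha, hb] at h1
  have h4 : d = 0 := by
    by_contra hne
    have := QQ_two h hne
    omega
  rw [h4, smul_zero] at he
  exact sub_eq_zero.1 he

end LAT

open LAT

/-- The root lattice of a positive definite simply laced Coxeter matrix. -/
def RLat (h : PosDef M) : RootLat (B → ℤ) where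
  Q := QQ M
  Q_add := QQ_add
  Q_comm := QQ_comm
  Q_pos := fun a ha => LAT.QQ_pos h ha
  P := fun a => a ≠ 0 ∧ ∀ i, 0 ≤ a i
  P_add := by
    rintro a b ⟨ha, ha'⟩ ⟨hb, hb'⟩
    refine ⟨?_, fun i => add_nonneg (ha' i) (hb' i)⟩
    intro h0
    apply ha
    ext i
    have h1 := congrFun h0 i
    have h2 := ha' i
    have h3 := hb' i
    simp only [Pi.add_apply, Pi.zero_apply] at h1 ⊢
    omega
  P_zero := fun hc => hc.1 rfl
  P_root := fun a ha => LAT.root_P h ha
  ht := fun a => ∑ i, a i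
  ht_add := fun a b => by simp [Finset.sum_add_distrib]
  ht_pos := by
    rintro a ⟨ha, ha'⟩
    rcases (Finset.sum_nonneg (s := Finset.univ) fun i _ => ha' i).lt_or_eq with h1 | h1
    · exact h1
    · exfalso
      apply ha
      ext i
      exact (Finset.sum_eq_zero_iff_of_nonneg fun i _ => ha' i).1 h1.symm i (Finset.mem_univ i)
  S := Set.range fun i => Pi.single i 1
  S_root := by
    rintro s ⟨i, rfl⟩
    rw [QQ_single, cart_self]
  S_pos := by
    rintro s ⟨i, rfl⟩
    refine ⟨fun h0 => ?_, fun j => ?_⟩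
    · have := congrFun h0 i
      simp at this
    · by_cases hij : j = i
      · subst hij; simp
      · simp [Pi.single_eq_of_ne hij]
  S_ht := by
    rintro s ⟨i, rfl⟩
    simp
  nonsimple := by
    rintro a ha ⟨ha0, ha'⟩ hs
    obtain ⟨i, hi, hai⟩ := LAT.nonsimple h ha ha' (fun i hi => hs ⟨i, hi⟩)
    refine ⟨_, ⟨i, rfl⟩, hi, ?_, ?_⟩
    · intro h0
      exact hs ⟨i, (sub_eq_zero.1 h0).symm⟩
    · intro j
      by_cases hij : j = i
      · subst hij; simp; omega
      · simp [Pi.single_eq_of_ne hij, ha' j]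
  S_refl := by
    rintro s ⟨i, rfl⟩ a ha ⟨ha0, ha'⟩ hne
    have hn : QQ M (a - QQ M a (Pi.single i 1) • Pi.single i 1) (a - QQ M a (Pi.single i 1) • Pi.single i 1) = 2 := by
      rw [QQ_self_sub, QQ_smul, QQ_smulr, QQ_smulr, QQ_single, cart_self, ha]; ring
    have hj : ∃ j, j ≠ i ∧ 0 < a j := by
      by_contra hc
      push Not at hc
      have hai : a = a i • (Pi.single i 1 : B → ℤ) := by
        ext j
        by_cases hij : j = i
        · subst hij; simp
        · have h1 := hc j hij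
          have h2 := ha' j
          simp [Pi.single_eq_of_ne hij]
          omega
      have h1 : QQ M a a = 2 * (a i * a i) := by
        conv_lhs => rw [hai]
        rw [QQ_smul, QQ_smulr, QQ_single, cart_self]; ring
      have h2 : a i * a i = 1 := by rw [ha] at h1; omega
      have h3 : a i = 1 := by
        have := ha' i
        nlinarith
      rw [h3, one_smul] at hai
      exact hne hai
    obtain ⟨j, hji, hj0⟩ := hj
    rcases LAT.root_P h hn with h1 | h1
    · exact h1
    · exfalso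
      have h2 := h1.2 j
      simp [Pi.single_eq_of_ne hji] at h2
      omega
  fin := LAT.fin h

theorem RLat_Q (h : PosDef M) (a b : B → ℤ) : (RLat h).Q a b = ∑ i, ∑ j, cart M i j * a i * b j := rfl

theorem RLat_Q_single (h : PosDef M) (i j : B) :
    (RLat h).Q (Pi.single i 1) (Pi.single j 1) = cart M i j := QQ_single i j

theorem RLat_S (h : PosDef M) : (RLat h).S = Set.range fun i => (Pi.single i 1 : B → ℤ) := rfl

theorem RLat_P (h : PosDef M) (a : B → ℤ) : (RLat h).P a ↔ a ≠ 0 ∧ ∀ i, 0 ≤ a i := Iff.rfl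

theorem RLat_ht (h : PosDef M) (a : B → ℤ) : (RLat h).ht a = ∑ i, a i := rfl

end Pool.Agent.H11.ZDE
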